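import Pool.Agent.Q103.SF.Stm2
import Pool.Agent.TH143.GE.Emb
import Pool.Agent.TH143.GE.Form

/-!
# SF-W4: curves of genus at most one have infinitely many pointed self-maps
-/

set_option autoImplicit false

namespace Pool.Agent.Q239.SF

open FF MvPolynomial Pool.Agent.W603.LV Pool.Agent.W603.PV Pool.Agent.W619.PQ
open Pool.Agent.W602.GT (val IsForm VarPts coords)
open Pool.Agent.W602.RG (PointedMaps HasValue)
open Pool.Agent.Q271.RC (Nonconst)
open scoped LinearAlgebra.Projectivization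

section gen

variable {L : Type} [Field L] [Algebra ℂ L]

/-- an endomorphism is given by a point with the same relations -/
theorem exists_end {n : ℕ} (x z : Fin n → L)
    (hgen : IntermediateField.adjoin ℂ (Set.range x) = ⊤)
    (h : ∀ G : MvPolynomial (Fin n) ℂ, aeval x G = 0 ↔ aeval z G = 0) :
    ∃ σ : L →ₐ[ℂ] L, ∀ i, σ (x i) = z i := by
  let F : MvPolynomial (Fin n) ℂ →ₐ[ℂ] L := aeval x
  let A : Subalgebra ℂ L := F.range
  let f : MvPolynomial (Fin n) ℂ →ₐ[ℂ] A := F.rangeRestrict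
  have hf : Function.Surjective f := F.rangeRestrict_surjective
  have hf0 : ∀ g, f g = 0 ↔ aeval x g = 0 := by
    intro g
    rw [← Subtype.coe_inj]
    exact Iff.rfl
  let φ : A →ₐ[ℂ] L := AlgHom.liftOfSurjective f hf (aeval z) (by
    intro g hg
    have h1 : f g = 0 := hg
    exact (h g).1 ((hf0 g).1 h1))
  have hφ : ∀ g, φ (f g) = aeval z g := fun g => AlgHom.liftOfSurjective_apply f hf (aeval z) _ g
  have hinj : Function.Injective φ := by
    rw [injective_iff_map_eq_zero]
    intro a ha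
    obtain ⟨g, rfl⟩ := hf a
    rw [hφ] at ha
    exact (hf0 g).2 ((h g).2 ha)
  have hxA : ∀ i, x i ∈ A := by
    intro i
    exact ⟨X i, aeval_X x i⟩
  have hle : Algebra.adjoin ℂ (Set.range x) ≤ A := by
    rw [Algebra.adjoin_le_iff]
    rintro _ ⟨i, rfl⟩
    exact hxA i
  have hfr : IsFractionRing A L := by
    apply IsFractionRing.of_field
    intro y
    have hy : y ∈ IntermediateField.adjoin ℂ (Set.range x) := by
      rw [hgen]
      exact IntermediateField.mem_top
    rw [IntermediateField.mem_adjoin_iff_div] at hy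
    obtain ⟨r, hr, s, hs, e⟩ := hy
    exact ⟨⟨r, hle hr⟩, ⟨s, hle hs⟩, e⟩
  refine ⟨IsFractionRing.liftAlgHom hinj, fun i => ?_⟩
  rw [IsFractionRing.liftAlgHom_apply]
  have h2 : x i = algebraMap A L (f (X i)) := (aeval_X x i).symm
  rw [h2, IsFractionRing.lift_algebraMap]
  exact (hφ _).trans (aeval_X z i)

/-- `f` has the value `a` at `c` -/
def Vl (c : Place ℂ L) (f : L) (a : ℂ) : Prop := Ge c 1 (f - algebraMap ℂ L a)

variable {c : Place ℂ L}

theorem Vl.reg {f : L} {a : ℂ} (h : Vl c f a) : Ge c 0 f := by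
  have h1 : f = (f - algebraMap ℂ L a) + algebraMap ℂ L a := by ring
  rw [h1]
  exact Ge.add (Ge.mono (by norm_num) h) (Ge.const (P := c) a)

theorem Vl.const (a : ℂ) : Vl c (algebraMap ℂ L a) a := by
  unfold Vl
  rw [sub_self]
  exact Or.inl rfl

theorem Vl.add {f g : L} {a b : ℂ} (hf : Vl c f a) (hg : Vl c g b) : Vl c (f + g) (a + b) := by
  unfold Vl
  have h1 : f + g - algebraMap ℂ L (a + b) = (f - algebraMap ℂ L a) + (g - algebraMap ℂ L b) := by
    rw [map_add]
    ring
  rw [h1]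
  exact Ge.add hf hg

theorem Vl.mul {f g : L} {a b : ℂ} (hf : Vl c f a) (hg : Vl c g b) : Vl c (f * g) (a * b) := by
  unfold Vl
  have h1 : f * g - algebraMap ℂ L (a * b) =
      (f - algebraMap ℂ L a) * g + algebraMap ℂ L a * (g - algebraMap ℂ L b) := by
    rw [map_mul]
    ring
  rw [h1]
  have h2 := Ge.mul hf hg.reg
  have h3 := Ge.mul (Ge.const (P := c) a) hg
  rw [add_zero] at h2
  rw [zero_add] at h3
  exact Ge.add h2 h3

theorem Vl.pow {f : L} {a : ℂ} (hf : Vl c f a) (n : ℕ) : Vl c (f ^ n) (a ^ n) := by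
  induction n with
  | zero =>
    have h1 := Vl.const (c := c) (1 : ℂ)
    rw [map_one] at h1
    rw [pow_zero, pow_zero]
    exact h1
  | succ n ih =>
    rw [pow_succ, pow_succ]
    exact ih.mul hf

theorem Vl.aeval {ι : Type} {x : ι → L} {q : ι → ℂ} (h : ∀ i, Vl c (x i) (q i))
    (G : MvPolynomial ι ℂ) : Vl c (MvPolynomial.aeval x G) (eval q G) := by
  induction G using MvPolynomial.induction_on with
  | C a =>
    rw [aeval_C, eval_C]
    exact Vl.const a
  | add p q hp hq =>
    rw [map_add, map_add]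
    exact hp.add hq
  | mul_X p i hp =>
    rw [map_mul, map_mul, aeval_X, eval_X]
    exact hp.mul (h i)

theorem not_ge {a : ℂ} (ha : a ≠ 0) : ¬ Ge c 1 (algebraMap ℂ L a) := by
  rintro (h | h)
  · exact ha ((map_eq_zero _).1 h)
  · rw [c.ord_const ha] at h
    omega

theorem Vl.uniq {f : L} {a b : ℂ} (ha : Vl c f a) (hb : Vl c f b) : a = b := by
  by_contra hab
  have h1 := Ge.sub hb ha
  have h2 : f - algebraMap ℂ L b - (f - algebraMap ℂ L a) = algebraMap ℂ L (a - b) := by
    rw [map_sub]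
    ring
  rw [h2] at h1
  exact not_ge (sub_ne_zero.2 hab) h1

end gen

section dil

variable {L : Type} [Field L] [Algebra ℂ L]

/-- The endomorphism fixes the place and multiplies the parameter by two up to higher order. -/
structure Dil (σ : L →ₐ[ℂ] L) (c : Place ℂ L) (z : L) : Prop where
  ord : ∀ f, f ≠ 0 → c.ord (σ f) = c.ord f
  one : c.ord z = 1
  dil : Vl c (σ z / z) 2

variable {σ : L →ₐ[ℂ] L} {c : Place ℂ L} {z : L}

theorem Dil.ge (h : Dil σ c z) {f : L} {N : ℤ} (hf : Ge c N f) : Ge c N (σ f) := by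
  by_cases h0 : f = 0
  · rw [h0, map_zero]
    exact Or.inl rfl
  · right
    rw [h.ord f h0]
    exact hf.resolve_left h0

theorem Dil.vl (h : Dil σ c z) {f : L} {a : ℂ} (hf : Vl c f a) : Vl c (σ f) a := by
  have h1 := h.ge hf
  rw [map_sub, AlgHom.commutes] at h1
  exact h1

theorem Dil.vlp (h : Dil σ c z) {f : L} {a : ℂ} (hf : Vl c f a) (n : ℕ) : Vl c ((σ ^ n) f) a := by
  induction n with
  | zero => exact hf
  | succ n ih =>
    rw [pow_succ', AlgHom.mul_apply]
    exact h.vl ih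

theorem Dil.ne (h : Dil σ c z) : z ≠ 0 := by
  rintro rfl
  have := h.one
  rw [c.ord_zero] at this
  omega

theorem Dil.pow (h : Dil σ c z) (n : ℕ) : Vl c ((σ ^ n) z / z) (2 ^ n) := by
  have hz := h.ne
  induction n with
  | zero =>
    rw [pow_zero, pow_zero, AlgHom.one_apply, div_self hz]
    have h1 := Vl.const (c := c) (1 : ℂ)
    rwa [map_one] at h1
  | succ n ih =>
    have h1 : (σ ^ (n + 1)) z / z = (σ ^ n) (σ z / z) * ((σ ^ n) z / z) := by
      have hz' : (σ ^ n) z ≠ 0 := (map_ne_zero _).2 hz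
      rw [pow_succ, AlgHom.mul_apply, map_div₀]
      field_simp
    rw [h1, pow_succ']
    exact (h.vlp h.dil n).mul ih

variable [IsFF ℂ L]

theorem Dil.not_fixed (h : Dil σ c z) {g : L} (hg0 : g ≠ 0) (hg : 0 < c.ord g) {k : ℕ}
    (hk : 1 ≤ k) : (σ ^ k) g ≠ g := by
  intro hfix
  have hz := h.ne
  obtain ⟨m, hm⟩ := Int.eq_ofNat_of_zero_le hg.le
  have hm1 : 1 ≤ m := by
    by_contra h0
    have : m = 0 := by omega
    rw [this] at hm
    rw [hm] at hg
    simp at hg
  have hu0 : g / z ^ m ≠ 0 := div_ne_zero hg0 (pow_ne_zero _ hz)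
  have hu : c.ord (g / z ^ m) = 0 := by
    rw [c.ord_div hg0 (pow_ne_zero _ hz), c.ord_pow, h.one, hm]
    ring
  obtain ⟨α, hα⟩ := exists_const c (f := g / z ^ m) (Or.inr hu.ge)
  have hα' : Vl c (g / z ^ m) α := hα
  have hα0 : α ≠ 0 := by
    rintro rfl
    rw [map_zero, sub_zero] at hα
    have := hα.resolve_left hu0
    omega
  have h1 : (σ ^ k) (g / z ^ m) * ((σ ^ k) z / z) ^ m = g / z ^ m := by
    have hz' : (σ ^ k) z ≠ 0 := (map_ne_zero _).2 hz
    rw [map_div₀, hfix, map_pow, div_pow]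
    field_simp
  have h2 : Vl c (g / z ^ m) (α * (2 ^ k) ^ m) := by
    rw [← h1]
    exact (h.vlp hα' k).mul ((h.pow k).pow m)
  have h3 := hα'.uniq h2
  have h4 : ((2 : ℂ) ^ k) ^ m = 1 := by
    have h5 : α * 1 = α * (2 ^ k) ^ m := by rw [mul_one]; exact h3
    exact (mul_left_cancel₀ hα0 h5).symm
  rw [← pow_mul] at h4
  have h5 : ((2 : ℕ) : ℂ) ^ (k * m) = ((1 : ℕ) : ℂ) := by
    push_cast
    exact h4
  have h6 : (2 : ℕ) ^ (k * m) = 1 := by exact_mod_cast h5
  have h7 : k * m = 0 := by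
    by_contra h8
    have := Nat.one_lt_two_pow h8
    omega
  rcases Nat.mul_eq_zero.1 h7 with h8 | h8 <;> omega

theorem ptd_of_dil (h : Dil σ c z) {M : ℕ} (v : Fin (M + 1) → L) (hv : Nonconst v) :
    ∃ a : Fin (M + 1) → ℂ, a ∈ VarPts ℂ v ∧ (PointedMaps v c a).Infinite := by
  classical
  obtain ⟨i1, j1, hj1, htr⟩ := hv
  obtain ⟨j0, hj0, hmin⟩ := exists_pord c ⟨j1, hj1⟩
  obtain ⟨V, hV⟩ : ∃ V : Fin (M + 1) → L, V = fun i => v i / v j0 := ⟨_, rfl⟩
  have hVreg : ∀ i, Ge c 0 (V i) := by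
    intro i
    by_cases h0 : v i = 0
    · left
      rw [hV]
      simp [h0]
    · right
      rw [hV]
      simp only
      rw [c.ord_div h0 hj0, hmin]
      have := pord_le c h0
      omega
  have hVj0 : V j0 = 1 := by rw [hV]; exact div_self hj0
  choose a ha using fun i => exists_const c (hVreg i)
  have ha' : ∀ i, Vl c (V i) (a i) := ha
  have haj0 : a j0 = 1 := by
    have h1 := ha' j0
    rw [hVj0] at h1
    have h2 := Vl.const (c := c) (1 : ℂ)
    rw [map_one] at h2
    exact h1.uniq h2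
  have hforms : ∀ G : MvPolynomial (Fin (M + 1)) ℂ, IsForm G → val v G = 0 → val V G = 0 := by
    rintro G ⟨d, hd⟩ hG
    have h1 : V = fun i => (v j0)⁻¹ * v i := by
      rw [hV]
      funext i
      rw [div_eq_mul_inv, mul_comm]
    rw [h1, Pool.Agent.W602.GT.val_smul hd, hG, mul_zero]
  refine ⟨a, ⟨?_, ?_⟩, ?_⟩
  · intro h0
    rw [h0] at haj0
    exact zero_ne_one haj0
  · intro G hG hvG
    have h1 := Vl.aeval ha' G
    have h2 : aeval V G = 0 := hforms G hG hvG
    rw [h2] at h1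
    have h3 := Vl.const (c := c) (0 : ℂ)
    rw [map_zero] at h3
    have h4 : eval a G = 0 := h1.uniq h3
    have h5 : val a G = eval a G :=
      congrArg (fun φ : MvPolynomial (Fin (M + 1)) ℂ →+* ℂ => φ G) (coe_aeval_eq_eval a)
    rw [h5, h4]
  · -- the iterates
    have hne : ∀ n : ℕ, (fun i => (σ ^ n) (V i)) ≠ 0 := by
      intro n h0
      have h1 := congrFun h0 j0
      simp only [hVj0, map_one, Pi.zero_apply] at h1
      exact one_ne_zero h1
    -- a coordinate which is not constant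
    obtain ⟨i2, hi2⟩ : ∃ i, V i - algebraMap ℂ L (a i) ≠ 0 := by
      by_contra hcon
      push Not at hcon
      apply htr
      have h1 : v i1 / v j1 = V i1 / V j1 := by
        rw [hV]
        field_simp
      rw [h1, sub_eq_zero.1 (hcon i1), sub_eq_zero.1 (hcon j1), ← map_div₀]
      exact isAlgebraic_algebraMap _
    have hpos : 0 < c.ord (V i2 - algebraMap ℂ L (a i2)) := by
      have := (ha i2).resolve_left hi2
      omega
    have hinj : ∀ n m : ℕ, n < m → (∀ i, (σ ^ n) (V i) = (σ ^ m) (V i)) → False := by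
      intro n m hnm heq
      have h1 : (σ ^ (m - n)) (V i2) = V i2 := by
        have h2 := heq i2
        have h3 : σ ^ m = σ ^ n * σ ^ (m - n) := by
          rw [← pow_add]
          congr 1
          omega
        rw [h3, AlgHom.mul_apply] at h2
        exact ((σ ^ n).toRingHom.injective h2).symm
      refine h.not_fixed hi2 hpos (k := m - n) (by omega) ?_
      rw [map_sub, AlgHom.commutes, h1]
    apply Set.infinite_of_injective_forall_mem
      (f := fun n : ℕ => Projectivization.mk L (fun i => (σ ^ n) (V i)) (hne n))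
    · intro n m hnm
      rw [Projectivization.mk_eq_mk_iff'] at hnm
      obtain ⟨b, hb⟩ := hnm
      have h1 := congrFun hb j0
      simp only [Pi.smul_apply, hVj0, map_one, smul_eq_mul, mul_one] at h1
      rw [h1, one_smul] at hb
      have h2 : ∀ i, (σ ^ m) (V i) = (σ ^ n) (V i) := fun i => congrFun hb i
      rcases lt_trichotomy n m with h3 | h3 | h3
      · exact (hinj n m h3 fun i => (h2 i).symm).elim
      · exact h3
      · exact (hinj m n h3 h2).elim
    · intro n
      refine ⟨fun i => (σ ^ n) (V i), hne n, ?_, ?_, rfl⟩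
      · intro H hH hvH
        have h1 : val (fun i => (σ ^ n) (V i)) H = (σ ^ n) (val V H) := by
          unfold Pool.Agent.W602.GT.val
          rw [MvPolynomial.comp_aeval_apply]
        rw [h1, hforms H hH hvH, map_zero]
      · intro i j
        have h1 : Ge c 1 (algebraMap ℂ L (a i) * (σ ^ n) (V j) -
            algebraMap ℂ L (a j) * (σ ^ n) (V i)) := by
          have h2 := h.vlp (ha' j) n
          have h3 := h.vlp (ha' i) n
          have h4 := Ge.mul (Ge.const (P := c) (a i)) h2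
          have h5 := Ge.mul (Ge.const (P := c) (a j)) h3
          rw [zero_add] at h4 h5
          have h6 := Ge.sub h4 h5
          have h7 : algebraMap ℂ L (a i) * ((σ ^ n) (V j) - algebraMap ℂ L (a j)) -
              algebraMap ℂ L (a j) * ((σ ^ n) (V i) - algebraMap ℂ L (a i)) =
              algebraMap ℂ L (a i) * (σ ^ n) (V j) - algebraMap ℂ L (a j) * (σ ^ n) (V i) := by
            ring
          rwa [h7] at h6
        rcases h1 with h1 | h1
        · exact Or.inl h1
        · right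
          have h2 : pord c (fun i => (σ ^ n) (V i)) ≤ c.ord ((σ ^ n) (V j0)) :=
            pord_le c (f := fun i => (σ ^ n) (V i)) (by
              simp only [hVj0, map_one]
              exact one_ne_zero)
          rw [hVj0, map_one, c.ord_one] at h2
          exact lt_of_le_of_lt h2 (lt_of_lt_of_le zero_lt_one h1)

end dil

section rat

variable {L : Type} [Field L] [Algebra ℂ L] [IsFF ℂ L]

theorem dil_rational {t : L} (ht : IntermediateField.adjoin ℂ {t} = ⊤) :
    ∃ (σ : L →ₐ[ℂ] L) (c : Place ℂ L) (z : L), Dil σ c z := by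
  classical
  have htt : Transcendental ℂ t := transcendental_of_top ht
  obtain ⟨c, hc, -⟩ := pole_unique ht
  have ht0 : t ≠ 0 := by
    rintro rfl
    rw [c.ord_zero] at hc
    omega
  have h2L : algebraMap ℂ L 2 ≠ 0 := (map_ne_zero _).2 two_ne_zero
  have ht2 : Transcendental ℂ (algebraMap ℂ L 2⁻¹ * t) := by
    intro h
    apply htt
    have h1 := (isAlgebraic_algebraMap (R := ℂ) (A := L) (2 : ℂ)).mul h
    rwa [map_inv₀, ← mul_assoc, mul_inv_cancel₀ h2L, one_mul] at h1
  have hind : ∀ s : L, Transcendental ℂ s → ∀ G : MvPolynomial (Fin 1) ℂ,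
      aeval ![s] G = 0 → G = 0 := by
    intro s hs G hG
    have h1 : AlgebraicIndependent ℂ (![s] : Fin 1 → L) := by
      rw [algebraicIndependent_unique_type_iff]
      exact hs
    exact h1.eq_zero_of_aeval_eq_zero G hG
  obtain ⟨σ, hσ⟩ := exists_end (![t] : Fin 1 → L) ![algebraMap ℂ L 2⁻¹ * t] (by
    rw [Matrix.range_cons, Matrix.range_empty, Set.union_empty]
    exact ht) (by
    intro G
    constructor
    · intro h
      rw [hind t htt G h, map_zero]
    · intro h
      rw [hind _ ht2 G h, map_zero])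
  have hσt : σ t = algebraMap ℂ L 2⁻¹ * t := hσ 0
  have hot : c.ord (σ t) = -1 := by
    rw [hσt, c.ord_mul ((map_ne_zero _).2 (inv_ne_zero two_ne_zero)) ht0,
      c.ord_const (inv_ne_zero two_ne_zero), hc]
    ring
  refine ⟨σ, c, t⁻¹, ⟨fun f hf => ?_, ?_, ?_⟩⟩
  · have hf1 : f ∈ IntermediateField.adjoin ℂ {t} := by
      rw [ht]
      exact IntermediateField.mem_top
    obtain ⟨r, s, hrs⟩ := (IntermediateField.mem_adjoin_simple_iff ℂ f).1 hf1
    have hr : r ≠ 0 := by
      rintro rfl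
      apply hf
      rw [hrs, map_zero, zero_div]
    have hs : s ≠ 0 := by
      rintro rfl
      apply hf
      rw [hrs, map_zero, div_zero]
    obtain ⟨r1, r2⟩ := ord_aeval_of_neg c (x := t) (by omega) hr
    obtain ⟨s1, s2⟩ := ord_aeval_of_neg c (x := t) (by omega) hs
    obtain ⟨r3, r4⟩ := ord_aeval_of_neg c (x := σ t) (by omega) hr
    obtain ⟨s3, s4⟩ := ord_aeval_of_neg c (x := σ t) (by omega) hs
    have h1 : σ f = Polynomial.aeval (σ t) r / Polynomial.aeval (σ t) s := by
      rw [hrs, map_div₀, Polynomial.aeval_algHom_apply, Polynomial.aeval_algHom_apply]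
    rw [h1, c.ord_div r3 s3, r4, s4, hrs, c.ord_div r1 s1, r2, s2, hot, hc]
  · rw [c.ord_inv, hc]
    norm_num
  · have h1 : σ t⁻¹ / t⁻¹ = algebraMap ℂ L 2 := by
      rw [map_inv₀, hσt, map_inv₀]
      field_simp
    rw [h1]
    exact Vl.const 2

end rat

section ell

variable {L : Type} [Field L] [Algebra ℂ L] [IsFF ℂ L]

theorem ord_AB (c : Place ℂ L) {A B : Polynomial ℂ} (h : A ≠ 0 ∨ B ≠ 0) :
    ∃ n : ℤ, ∀ x y : L, c.ord x = -2 → c.ord y = -3 →
      c.ord (Polynomial.aeval x A + Polynomial.aeval x B * y) = n := by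
  have hy0 : ∀ y : L, c.ord y = -3 → y ≠ 0 := by
    rintro y hy rfl
    rw [c.ord_zero] at hy
    omega
  by_cases hA : A = 0
  · have hB : B ≠ 0 := h.resolve_left (not_not.2 hA)
    refine ⟨B.natDegree * (-2) - 3, fun x y hx hy => ?_⟩
    obtain ⟨h1, h2⟩ := ord_aeval_of_neg c (x := x) (by omega) hB
    rw [hA, map_zero, zero_add, c.ord_mul h1 (hy0 y hy), h2, hx, hy]
    ring
  by_cases hB : B = 0
  · refine ⟨A.natDegree * (-2), fun x y hx hy => ?_⟩
    obtain ⟨h1, h2⟩ := ord_aeval_of_neg c (x := x) (by omega) hA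
    rw [hB, map_zero, zero_mul, add_zero, h2, hx]
  refine ⟨min (A.natDegree * (-2)) (B.natDegree * (-2) - 3), fun x y hx hy => ?_⟩
  obtain ⟨h1, h2⟩ := ord_aeval_of_neg c (x := x) (by omega) hA
  obtain ⟨h3, h4⟩ := ord_aeval_of_neg c (x := x) (by omega) hB
  have h5 : c.ord (Polynomial.aeval x B * y) = B.natDegree * (-2) - 3 := by
    rw [c.ord_mul h3 (hy0 y hy), h4, hx, hy]
    ring
  have h6 := mul_ne_zero h3 (hy0 y hy)
  rw [hx] at h2
  rcases lt_or_ge ((A.natDegree : ℤ) * (-2)) (B.natDegree * (-2) - 3) with h7 | h7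
  · rw [(c.ord_add_eq h1 h6 (by rw [h2, h5]; exact h7)).2, h2, min_eq_left h7.le]
  · have h8 : (B.natDegree : ℤ) * (-2) - 3 < A.natDegree * (-2) := by omega
    rw [add_comm, (c.ord_add_eq h6 h1 (by rw [h2, h5]; exact h8)).2, h5, min_eq_right h8.le]

theorem dil_elliptic (h0 : canDeg ℂ L = 0) :
    ∃ (σ : L →ₐ[ℂ] L) (c : Place ℂ L) (z : L), Dil σ c z := by
  classical
  obtain ⟨P, x, y, a, b, hx0, hy0, hx, hy, hxr, hrel⟩ := Pool.Agent.TH143.GE.exists_short h0
  have hxt : Transcendental ℂ x := P.transcendental_of_ord_ne (by omega)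
  have hfr := Pool.Agent.TH143.GE.finrank_one_pole (P := P) (x := x) (n := 2) two_ne_zero
    (by rw [hx]; norm_num) hxr
  have hynot : y ∉ IntermediateField.adjoin ℂ {x} := by
    intro hmem
    obtain ⟨r, s, hrs⟩ := (IntermediateField.mem_adjoin_simple_iff ℂ y).1 hmem
    by_cases hs : Polynomial.aeval x s = 0
    · rw [hs, div_zero] at hrs
      exact hy0 hrs
    · have h1 := (Pool.Agent.TH143.GE.indep (A := -r) (B := s) hx hy0 hy (by
        rw [hrs, map_neg]
        field_simp
        ring)).2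
      rw [h1, map_zero] at hs
      exact hs rfl
  have htop : IntermediateField.adjoin (IntermediateField.adjoin ℂ {x}) {y} = ⊤ := by
    have h1 : Nat.Prime (Module.finrank (IntermediateField.adjoin ℂ {x}) L) := by
      rw [hfr]; exact Nat.prime_two
    have h2 := IntermediateField.isSimpleOrder_of_finrank_prime (IntermediateField.adjoin ℂ {x}) L h1
    rcases h2.eq_bot_or_eq_top (IntermediateField.adjoin (IntermediateField.adjoin ℂ {x}) {y})
      with h3 | h3
    · exfalso
      have h4 : y ∈ IntermediateField.adjoin (IntermediateField.adjoin ℂ {x}) {y} :=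
        IntermediateField.mem_adjoin_simple_self _ y
      rw [h3, IntermediateField.mem_bot] at h4
      obtain ⟨z, hz⟩ := h4
      apply hynot
      rw [← hz]
      exact z.2
    · exact h3
  have htop2 : IntermediateField.adjoin ℂ {x, y} = ⊤ := by
    rw [← IntermediateField.adjoin_simple_adjoin_simple, htop]
    exact IntermediateField.restrictScalars_top
  have hrange : IntermediateField.adjoin ℂ (Set.range ![x, y]) = ⊤ := by
    rw [Matrix.range_cons, Matrix.range_cons, Matrix.range_empty, Set.union_empty,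
      Set.singleton_union, htop2]
  have hch : CharZero L := charZero_of_injective_algebraMap (algebraMap ℂ L).injective
  -- duplication
  obtain ⟨n4, hn4⟩ : ∃ n4 : L, n4 = x ^ 4 - 2 * algebraMap ℂ L a * x ^ 2 -
    8 * algebraMap ℂ L b * x + algebraMap ℂ L a ^ 2 := ⟨_, rfl⟩
  obtain ⟨n6, hn6⟩ : ∃ n6 : L, n6 = x ^ 6 + 5 * algebraMap ℂ L a * x ^ 4 +
    20 * algebraMap ℂ L b * x ^ 3 - 5 * algebraMap ℂ L a ^ 2 * x ^ 2 -
    4 * algebraMap ℂ L a * algebraMap ℂ L b * x - 8 * algebraMap ℂ L b ^ 2 -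
    algebraMap ℂ L a ^ 3 := ⟨_, rfl⟩
  have ho4 : n4 ≠ 0 ∧ P.ord n4 = -8 := by
    have h1 : (Polynomial.X ^ 4 - Polynomial.C (2 * a) * Polynomial.X ^ 2 -
      Polynomial.C (8 * b) * Polynomial.X + Polynomial.C (a ^ 2) : Polynomial ℂ).natDegree = 4 := by
      compute_degree!
    have h2 : (Polynomial.X ^ 4 - Polynomial.C (2 * a) * Polynomial.X ^ 2 -
      Polynomial.C (8 * b) * Polynomial.X + Polynomial.C (a ^ 2) : Polynomial ℂ) ≠ 0 := by
      intro h
      rw [h] at h1
      simp at h1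
    obtain ⟨h3, h4⟩ := ord_aeval_of_neg P (x := x) (by omega) h2
    have h5 : Polynomial.aeval x (Polynomial.X ^ 4 - Polynomial.C (2 * a) * Polynomial.X ^ 2 -
      Polynomial.C (8 * b) * Polynomial.X + Polynomial.C (a ^ 2) : Polynomial ℂ) = n4 := by
      rw [hn4]
      simp only [map_add, map_sub, map_mul, map_pow, Polynomial.aeval_X, Polynomial.aeval_C,
        map_ofNat]
    rw [h5] at h3 h4
    rw [h1, hx] at h4
    exact ⟨h3, by rw [h4]; norm_num⟩
  have ho6 : n6 ≠ 0 ∧ P.ord n6 = -12 := by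
    have h1 : (Polynomial.X ^ 6 + Polynomial.C (5 * a) * Polynomial.X ^ 4 +
      Polynomial.C (20 * b) * Polynomial.X ^ 3 - Polynomial.C (5 * a ^ 2) * Polynomial.X ^ 2 -
      Polynomial.C (4 * a * b) * Polynomial.X - Polynomial.C (8 * b ^ 2) -
      Polynomial.C (a ^ 3) : Polynomial ℂ).natDegree = 6 := by
      compute_degree!
    have h2 : (Polynomial.X ^ 6 + Polynomial.C (5 * a) * Polynomial.X ^ 4 +
      Polynomial.C (20 * b) * Polynomial.X ^ 3 - Polynomial.C (5 * a ^ 2) * Polynomial.X ^ 2 -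
      Polynomial.C (4 * a * b) * Polynomial.X - Polynomial.C (8 * b ^ 2) -
      Polynomial.C (a ^ 3) : Polynomial ℂ) ≠ 0 := by
      intro h
      rw [h] at h1
      simp at h1
    obtain ⟨h3, h4⟩ := ord_aeval_of_neg P (x := x) (by omega) h2
    have h5 : Polynomial.aeval x (Polynomial.X ^ 6 + Polynomial.C (5 * a) * Polynomial.X ^ 4 +
      Polynomial.C (20 * b) * Polynomial.X ^ 3 - Polynomial.C (5 * a ^ 2) * Polynomial.X ^ 2 -
      Polynomial.C (4 * a * b) * Polynomial.X - Polynomial.C (8 * b ^ 2) -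
      Polynomial.C (a ^ 3) : Polynomial ℂ) = n6 := by
      rw [hn6]
      simp only [map_add, map_sub, map_mul, map_pow, Polynomial.aeval_X, Polynomial.aeval_C,
        map_ofNat]
    rw [h5] at h3 h4
    rw [h1, hx] at h4
    exact ⟨h3, by rw [h4]; norm_num⟩
  have hc4 : P.ord (4 : L) = 0 := by
    have := P.ord_const (c := (4 : ℂ)) (by norm_num)
    rwa [map_ofNat] at this
  have hc8 : P.ord (8 : L) = 0 := by
    have := P.ord_const (c := (8 : ℂ)) (by norm_num)
    rwa [map_ofNat] at this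
  have h4ne : (4 : L) ≠ 0 := by norm_num
  have h8ne : (8 : L) ≠ 0 := by norm_num
  obtain ⟨x2, hx2⟩ : ∃ x2 : L, x2 = n4 / (4 * y ^ 2) := ⟨_, rfl⟩
  obtain ⟨y2, hy2⟩ : ∃ y2 : L, y2 = n6 / (8 * y ^ 3) := ⟨_, rfl⟩
  have hox2 : P.ord x2 = -2 := by
    rw [hx2, P.ord_div ho4.1 (mul_ne_zero h4ne (pow_ne_zero _ hy0)), P.ord_mul h4ne
      (pow_ne_zero _ hy0), P.ord_pow, hy, ho4.2, hc4]
    norm_num
  have hoy2 : P.ord y2 = -3 := by
    rw [hy2, P.ord_div ho6.1 (mul_ne_zero h8ne (pow_ne_zero _ hy0)), P.ord_mul h8ne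
      (pow_ne_zero _ hy0), P.ord_pow, hy, ho6.2, hc8]
    norm_num
  have hrel2 : y2 ^ 2 = x2 ^ 3 + algebraMap ℂ L a * x2 + algebraMap ℂ L b := by
    have h1 : n6 ^ 2 = n4 ^ 3 + 16 * algebraMap ℂ L a * n4 * (y ^ 2) ^ 2 +
        64 * algebraMap ℂ L b * (y ^ 2) ^ 3 := by
      rw [hrel, hn4, hn6]
      ring
    rw [hx2, hy2]
    field_simp
    linear_combination 64 * h1
  have hAB : ∀ G : MvPolynomial (Fin 2) ℂ, ∃ A B : Polynomial ℂ,
      aeval ![x, y] G = Polynomial.aeval x A + Polynomial.aeval x B * y ∧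
      aeval ![x2, y2] G = Polynomial.aeval x2 A + Polynomial.aeval x2 B * y2 := by
    intro G
    obtain ⟨A, B, h⟩ := Pool.Agent.TH143.GE.normal a b G
    exact ⟨A, B, h L x y hrel, h L x2 y2 hrel2⟩
  have hy20 : y2 ≠ 0 := by
    rintro h
    rw [h, P.ord_zero] at hoy2
    omega
  obtain ⟨σ, hσ⟩ := exists_end ![x, y] ![x2, y2] hrange (by
    intro G
    obtain ⟨A, B, h1, h2⟩ := hAB G
    rw [h1, h2]
    constructor
    · intro h
      obtain ⟨rfl, rfl⟩ := Pool.Agent.TH143.GE.indep hx hy0 hy h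
      simp
    · intro h
      obtain ⟨rfl, rfl⟩ := Pool.Agent.TH143.GE.indep hox2 hy20 hoy2 h
      simp)
  have hσx : σ x = x2 := hσ 0
  have hσy : σ y = y2 := hσ 1
  have hσG : ∀ G : MvPolynomial (Fin 2) ℂ, σ (aeval ![x, y] G) = aeval ![x2, y2] G := by
    intro G
    rw [MvPolynomial.comp_aeval_apply]
    congr 2
    funext i
    fin_cases i
    · exact hσx
    · exact hσy
  have hord : ∀ G : MvPolynomial (Fin 2) ℂ, aeval ![x, y] G ≠ 0 →
      P.ord (aeval ![x2, y2] G) = P.ord (aeval ![x, y] G) := by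
    intro G hG
    obtain ⟨A, B, h1, h2⟩ := hAB G
    have h3 : A ≠ 0 ∨ B ≠ 0 := by
      by_contra hcon
      push Not at hcon
      apply hG
      rw [h1, hcon.1, hcon.2]
      simp
    obtain ⟨n, hn⟩ := ord_AB P h3
    rw [h1, h2, hn x y hx hy, hn x2 y2 hox2 hoy2]
  refine ⟨σ, P, x / y, ⟨fun f hf => ?_, ?_, ?_⟩⟩
  · have h1 : f ∈ IntermediateField.adjoin ℂ (Set.range ![x, y]) := by
      rw [hrange]
      exact IntermediateField.mem_top
    obtain ⟨r, s, hrs⟩ := (IntermediateField.mem_adjoin_range_iff ℂ ![x, y] f).1 h1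
    have hr : aeval ![x, y] r ≠ 0 := by
      intro h
      apply hf
      rw [hrs, h, zero_div]
    have hs : aeval ![x, y] s ≠ 0 := by
      intro h
      apply hf
      rw [hrs, h, div_zero]
    have hr' : aeval ![x2, y2] r ≠ 0 := by
      rw [← hσG]
      exact (map_ne_zero _).2 hr
    have hs' : aeval ![x2, y2] s ≠ 0 := by
      rw [← hσG]
      exact (map_ne_zero _).2 hs
    rw [hrs, map_div₀, hσG, hσG, P.ord_div hr' hs', P.ord_div hr hs, hord r hr, hord s hs]
  · rw [P.ord_div hx0 hy0, hx, hy]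
    norm_num
  · have hq : σ (x / y) / (x / y) - algebraMap ℂ L 2 = 2 * (y ^ 2 * n4 - x * n6) / (x * n6) := by
      have h6 := ho6.1
      rw [map_div₀, hσx, hσy, hx2, hy2, map_ofNat]
      field_simp
      ring
    obtain ⟨R5, hR5⟩ : ∃ R5 : Polynomial ℂ, R5 = Polynomial.C (-6 * a) * Polynomial.X ^ 5 -
      Polynomial.C (27 * b) * Polynomial.X ^ 4 + Polynomial.C (4 * a ^ 2) * Polynomial.X ^ 3 -
      Polynomial.C (6 * a * b) * Polynomial.X ^ 2 + Polynomial.C (2 * a ^ 3) * Polynomial.X +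
      Polynomial.C (a ^ 2 * b) := ⟨_, rfl⟩
    have hR5d : R5.natDegree ≤ 5 := by
      rw [hR5]
      compute_degree
    have hR : y ^ 2 * n4 - x * n6 = Polynomial.aeval x R5 := by
      rw [hrel, hn4, hn6, hR5]
      simp only [map_add, map_sub, map_mul, map_pow, Polynomial.aeval_X, Polynomial.aeval_C,
        map_ofNat, map_neg]
      ring
    unfold Vl
    rw [hq, hR]
    by_cases hR0 : R5 = 0
    · left
      rw [hR0, map_zero, mul_zero, zero_div]
    · right
      obtain ⟨h1, h2⟩ := ord_aeval_of_neg P (x := x) (by omega) hR0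
      have hc2 : P.ord (2 : L) = 0 := by
        have := P.ord_const (c := (2 : ℂ)) (by norm_num)
        rwa [map_ofNat] at this
      rw [P.ord_div (mul_ne_zero two_ne_zero h1) (mul_ne_zero hx0 ho6.1),
        P.ord_mul two_ne_zero h1, P.ord_mul hx0 ho6.1, h2, hc2, ho6.2, hx]
      omega

end ell

/-- **W4.** -/
theorem ptd : Pool.Agent.Q103.SF.S_ptd := by
  intro L _ _ _ hL M v hv
  obtain ⟨σ, c, z, h⟩ : ∃ (σ : L →ₐ[ℂ] L) (c : Place ℂ L) (z : L), Dil σ c z := by
    rcases lt_or_eq_of_le hL with h0 | h0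
    · obtain ⟨t, ht⟩ := Pool.Agent.TH143.GE.rational_of_neg h0
      exact dil_rational ht
    · exact dil_elliptic h0
  obtain ⟨a, ha1, ha2⟩ := ptd_of_dil h v hv
  exact ⟨c, a, ha1, ha2⟩

end Pool.Agent.Q239.SF
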