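import Pool.Agent.Q103.SF.Stm2
import Pool.Agent.Q72.OK.Kob
import Pool.Agent.Q72.OK.Lift
import Pool.Agent.Q185.OK.H
import Pool.Agent.Y221.PD.Imp

/-!
# SF-W5: Brody's theorem for projective varieties
-/

set_option autoImplicit false

open Filter Topology Metric Set MvPolynomial

namespace Pool.Agent.Q239.SF

open Pool.Agent.W602.GT (val IsForm)
open Pool.Agent.Y221.BD (EntireCurve)
open Pool.Agent.Y221.PD (curve_of_entire)
open Pool.Agent.Q103.KO (IsPoint SameP Chain Disc poin)
open Pool.Agent.Q72.OK (Mat Phi PM Phi_smul Phi_inj HomFun HolO HolP brody disc_lip exists_lift dense_ne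
  continuousAt_Phi)
open Pool.Agent.Helper206 (cost)

variable {M : ℕ} {K : Type} [Field K] [Algebra ℂ K] {x : Fin (M + 1) → K}

/-- the projection matrices of the points of a projective variety -/
def pts (x : Fin (M + 1) → K) : Set (Mat M) := {A | ∃ u : Fin (M + 1) → ℂ, IsPoint x u ∧ A = Phi u}

theorem eval_smul {G : MvPolynomial (Fin (M + 1)) ℂ} {e : ℕ} (hG : G.IsHomogeneous e) (c : ℂ)
    (u : Fin (M + 1) → ℂ) : eval (c • u) G = c ^ e * eval u G := by
  have h1 := Pool.Agent.W602.GT.val_smul (k := ℂ) hG c u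
  unfold Pool.Agent.W602.GT.val at h1
  have h2 : ∀ w : Fin (M + 1) → ℂ, aeval w G = eval w G := fun w =>
    congrArg (fun φ : MvPolynomial (Fin (M + 1)) ℂ →+* ℂ => φ G) (coe_aeval_eq_eval w)
  rw [h2, h2] at h1
  exact h1

theorem mem_of_phi {u : Fin (M + 1) → ℂ} (hu : u ≠ 0) (h : Phi u ∈ pts x) : IsPoint x u := by
  obtain ⟨v, hv, he⟩ := h
  obtain ⟨c, hc, rfl⟩ := Phi_inj hv.1 hu he.symm
  refine ⟨hu, fun G hG hGx => ?_⟩
  obtain ⟨e, he⟩ := hG
  rw [eval_smul he, hv.2 G ⟨e, he⟩ hGx, mul_zero]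

theorem isCompact_pts : IsCompact (pts x) := by
  set T : Set (Fin (M + 1) → ℂ) := sphere 0 1 ∩
    {u | ∀ G : MvPolynomial (Fin (M + 1)) ℂ, IsForm G → val x G = 0 → eval u G = 0} with hT
  have h1 : IsCompact T := by
    refine (isCompact_sphere _ _).inter_right ?_
    have : {u : Fin (M + 1) → ℂ | ∀ G : MvPolynomial (Fin (M + 1)) ℂ, IsForm G → val x G = 0 →
        eval u G = 0} =
        ⋂ (G : MvPolynomial (Fin (M + 1)) ℂ) (_ : IsForm G) (_ : val x G = 0), {u | eval u G = 0} := by
      ext u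
      simp
    rw [this]
    exact isClosed_iInter fun G => isClosed_iInter fun _ => isClosed_iInter fun _ =>
      isClosed_eq (MvPolynomial.continuous_eval G) continuous_const
  have h2 : pts x = Phi '' T := by
    ext A
    constructor
    · rintro ⟨u, ⟨hu, hF⟩, rfl⟩
      have hn : ‖u‖ ≠ 0 := norm_ne_zero_iff.2 hu
      have hc : ((‖u‖ : ℂ))⁻¹ ≠ 0 := inv_ne_zero (by exact_mod_cast hn)
      refine ⟨((‖u‖ : ℂ))⁻¹ • u, ⟨?_, fun G hG hGx => ?_⟩, Phi_smul hc u⟩
      · rw [mem_sphere_zero_iff_norm, norm_smul, norm_inv, Complex.norm_real, norm_norm,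
          inv_mul_cancel₀ hn]
      · obtain ⟨e, he⟩ := hG
        rw [eval_smul he, hF G ⟨e, he⟩ hGx, mul_zero]
    · rintro ⟨u, ⟨hu, hF⟩, rfl⟩
      refine ⟨u, ⟨?_, hF⟩, rfl⟩
      rintro rfl
      rw [mem_sphere_zero_iff_norm, norm_zero] at hu
      exact zero_ne_one hu
  rw [h2]
  refine h1.image_of_continuousOn fun u hu => (continuousAt_Phi ?_).continuousWithinAt
  rintro rfl
  have := hu.1
  rw [mem_sphere_zero_iff_norm, norm_zero] at this
  exact zero_ne_one this

theorem pts_sub : pts x ⊆ PM := by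
  rintro A ⟨u, hu, rfl⟩
  exact ⟨u, hu.1, rfl⟩

/-- no condition -/
def noq (n : ℕ) : Empty → (Fin (n + 1) → ℂ) → ℂ := fun a => a.elim

theorem noq_hom (n : ℕ) : HomFun (noq n) := ⟨fun a => a.elim, fun a => a.elim⟩

theorem holO_of {m : Empty → ℕ} {U : Set ℂ} {φ : ℂ → Mat M} (h : HolP U φ) : HolO m (noq M) U φ := by
  intro z hz
  obtain ⟨V, F, hV, hzV, hd, hF⟩ := h z hz
  exact ⟨V, F, hV, hzV, hd, hF, fun w _ a => a.elim⟩

/-- entire maps are constant if there are no entire curves -/
theorem const_of (h : ∀ f, ¬ EntireCurve x f) {Ψ : ℂ → Mat M} (hΨ : HolP univ Ψ)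
    (hS : ∀ z, Ψ z ∈ pts x) (z : ℂ) : Ψ z = Ψ 0 := by
  obtain ⟨F, hFd, ⟨z0, hz0⟩, hF⟩ := exists_lift hΨ
  obtain ⟨i0, hi0⟩ := Function.ne_iff.1 hz0
  have hFi : ∀ i, Differentiable ℂ fun z => F z i := fun i => differentiable_pi.1 hFd i
  have hdense : Dense {z | F z i0 ≠ 0} := dense_ne (hFi i0) ⟨z0, hi0⟩
  have hmem : ∀ G : MvPolynomial (Fin (M + 1)) ℂ, IsForm G → val x G = 0 →
      ∀ t, eval (fun i => F t i) G = 0 := by
    intro G hG hGx t
    have hc : Continuous fun t => eval (F t) G :=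
      (MvPolynomial.continuous_eval G).comp hFd.continuous
    have hclosed : IsClosed {t | eval (F t) G = 0} := isClosed_eq hc continuous_const
    have hsub : {z | F z i0 ≠ 0} ⊆ {t | eval (F t) G = 0} := by
      intro w hw
      have hw0 : F w ≠ 0 := by
        intro h0
        apply hw
        rw [h0]
        rfl
      have h1 := hS w
      rw [hF w hw0] at h1
      exact (mem_of_phi hw0 h1).2 G hG hGx
    have h2 : t ∈ closure {z | F z i0 ≠ 0} := hdense t
    exact (hclosed.closure_subset_iff.2 hsub) h2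
  have hprop : ∀ i j a b, F a i * F b j = F a j * F b i := by
    by_contra hcon
    push Not at hcon
    obtain ⟨i, j, a, b, hab⟩ := hcon
    obtain ⟨f, hf, -⟩ := curve_of_entire (x := x) (u := fun i t => F t i) hFi hmem
      (i := i) (j := j) (a := a) (b := b) hab
    exact h f hf
  have hconst : ∀ w, F w i0 ≠ 0 → Ψ w = Phi (F z0) := by
    intro w hw
    have hw0 : F w ≠ 0 := by
      intro h0
      apply hw
      rw [h0]
      rfl
    have h1 : F w = (F w i0 / F z0 i0) • F z0 := by
      funext j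
      rw [Pi.smul_apply, smul_eq_mul]
      have h2 := hprop i0 j w z0
      have hi0' : F z0 i0 ≠ 0 := hi0
      field_simp
      linear_combination -h2
    rw [hF w hw0, h1]
    exact Phi_smul (div_ne_zero hw hi0) _
  have hclosed : IsClosed {w | Ψ w = Phi (F z0)} := by
    refine isClosed_eq ?_ continuous_const
    exact continuous_iff_continuousAt.2 fun w => hΨ.continuousAt (mem_univ w)
  have hall : ∀ w, Ψ w = Phi (F z0) := fun w =>
    (hclosed.closure_subset_iff.2 fun w hw => hconst w hw) (hdense w)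
  rw [hall z, hall 0]

theorem poin_eq (s t : ℂ) : poin s t = cost s t / 2 := by
  unfold poin cost
  have h1 : ‖1 - (starRingEnd ℂ) t * s‖ = ‖1 - (starRingEnd ℂ) s * t‖ := by
    rw [← Complex.norm_conj (1 - (starRingEnd ℂ) t * s)]
    congr 1
    rw [map_sub, map_mul, map_one, Complex.conj_conj, mul_comm]
  rw [norm_div, h1]
  ring

/-- **W5.** -/
theorem kob : Pool.Agent.Q103.SF.S_kob := by
  classical
  intro M K _ _ x
  constructor
  · intro h a b ha hb hab
    obtain ⟨C, hC, hbr⟩ := brody (m := fun _ : Empty => 0) (q := noq M) Pool.Agent.Q185.OK.job_h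
      (noq_hom M) (isCompact_pts (x := x)) pts_sub
      (fun Ψ hΨ hS z => const_of h hΨ.holP hS z)
    obtain ⟨L, hL, hlip⟩ := disc_lip (noq_hom M) (isCompact_pts (x := x)) hC hbr
    have hdisc : ∀ g : ℂ → Fin (M + 1) → ℂ, Disc x g → ∀ s ∈ ball (0 : ℂ) 1,
        ∀ t ∈ ball (0 : ℂ) 1, dist (Phi (g s)) (Phi (g t)) ≤ 2 * L * poin s t := by
      intro g hg s hs t ht
      have h1 : HolP (ball 0 1) (fun z => Phi (g z)) := by
        intro z hz
        exact ⟨ball 0 1, g, isOpen_ball, hz, differentiableOn_pi.2 hg.hol,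
          fun w hw => ⟨hg.ne w hw, rfl⟩⟩
      have h2 := hlip (fun z => Phi (g z)) (holO_of h1) (fun z hz => ⟨g z, ⟨hg.ne z hz,
        fun G hG hGx => hg.mem G hG hGx z hz⟩, rfl⟩) s hs t ht
      rw [dist_comm, poin_eq]
      linarith
    have hchain : ∀ (a b : Fin (M + 1) → ℂ) (l : ℝ), Chain x a b l →
        dist (Phi a) (Phi b) ≤ 2 * L * l := by
      intro a b l hl
      induction hl with
      | nil a b hab =>
        obtain ⟨c, hc, rfl⟩ := hab
        rw [Phi_smul hc, dist_self, mul_zero]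
      | cons a b g s t l hg hs ht hags _ ih =>
        obtain ⟨c, hc, hcg⟩ := hags
        have h1 : Phi (g s) = Phi a := by
          rw [hcg]
          exact Phi_smul hc a
        have h2 := hdisc g hg s hs t ht
        rw [h1] at h2
        calc dist (Phi a) (Phi b) ≤ dist (Phi a) (Phi (g t)) + dist (Phi (g t)) (Phi b) :=
              dist_triangle _ _ _
          _ ≤ 2 * L * poin s t + 2 * L * l := add_le_add h2 ih
          _ = 2 * L * (poin s t + l) := by ring
    have hne : Phi a ≠ Phi b := by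
      intro h0
      obtain ⟨c, hc, hcb⟩ := Phi_inj ha.1 hb.1 h0
      exact hab ⟨c, hc, hcb⟩
    refine ⟨dist (Phi a) (Phi b) / (2 * L), div_pos (dist_pos.2 hne) (by positivity),
      fun l hl => ?_⟩
    rw [div_le_iff₀ (by positivity)]
    have := hchain a b l hl
    linarith
  · intro h f hf
    obtain ⟨i, j, α, β, hab⟩ := hf.nonconst
    have hpt : ∀ t, IsPoint x (fun i => f i t) := by
      intro t
      refine ⟨fun h0 => ?_, fun G hG hGx => hf.mem G hG hGx t⟩
      obtain ⟨i, hi⟩ := hf.ne t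
      exact hi (congrFun h0 i)
    obtain ⟨ε, hε, hch⟩ := h (fun i => f i α) (fun i => f i β) (hpt α) (hpt β) (by
      rintro ⟨c, hc, hcb⟩
      apply hab
      have h1 := congrFun hcb i
      have h2 := congrFun hcb j
      simp only [Pi.smul_apply, smul_eq_mul] at h1 h2
      rw [h1, h2]
      ring)
    have hlim : Tendsto (fun R : ℝ => 1 / 2 * Real.log ((1 + ‖β - α‖ / R) / (1 - ‖β - α‖ / R)))
        atTop (𝓝 0) := by
      have h1 : Tendsto (fun R : ℝ => ‖β - α‖ / R) atTop (𝓝 0) :=
        tendsto_const_nhds.div_atTop tendsto_id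
      have h2 : Tendsto (fun R : ℝ => (1 + ‖β - α‖ / R) / (1 - ‖β - α‖ / R)) atTop
          (𝓝 ((1 + 0) / (1 - 0))) :=
        (tendsto_const_nhds.add h1).div (tendsto_const_nhds.sub h1) (by norm_num)
      have h3 := (Real.continuousAt_log (x := (1 + 0) / (1 - 0)) (by norm_num)).tendsto.comp h2
      have h4 : Real.log ((1 + 0) / (1 - 0)) = 0 := by norm_num
      rw [h4] at h3
      have h5 := h3.const_mul (1 / 2 : ℝ)
      rw [mul_zero] at h5
      exact h5
    obtain ⟨R, hR1, hR2, hR3⟩ := ((hlim.eventually_lt_const hε).and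
      ((eventually_gt_atTop (‖β - α‖)).and (eventually_gt_atTop (0 : ℝ)))).exists
    have hRc : (R : ℂ) ≠ 0 := by exact_mod_cast hR3.ne'
    have hdisc : Disc x (fun z i => f i (α + R * z)) := by
      refine ⟨fun i => ?_, fun z _ h0 => ?_, fun G hG hGx z _ => hf.mem G hG hGx (α + R * z)⟩
      · have hd : Differentiable ℂ fun u : ℂ => α + (R : ℂ) * u := by fun_prop
        exact ((hf.hol i).comp hd).differentiableOn
      · obtain ⟨i, hi⟩ := hf.ne (α + R * z)
        exact hi (congrFun h0 i)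
    have ht : (β - α) / R ∈ ball (0 : ℂ) 1 := by
      rw [mem_ball_zero_iff, norm_div, Complex.norm_real, Real.norm_of_nonneg hR3.le,
        div_lt_one hR3]
      exact hR2
    have hchain : Chain x (fun i => f i α) (fun i => f i β) (poin 0 ((β - α) / R) + 0) := by
      refine Chain.cons _ _ (fun z i => f i (α + R * z)) 0 ((β - α) / R) 0 hdisc
        (mem_ball_self one_pos) ht ⟨1, one_ne_zero, ?_⟩ (Chain.nil _ _ ⟨1, one_ne_zero, ?_⟩)
      · funext i
        simp
      · funext i
        have h5 : α + (R : ℂ) * ((β - α) / R) = β := by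
          field_simp
          ring
        simp only [h5, one_smul]
    have h6 := hch _ hchain
    rw [add_zero] at h6
    unfold poin at h6
    simp only [zero_sub, norm_neg, mul_zero, sub_zero, div_one, norm_div,
      Complex.norm_real, Real.norm_of_nonneg hR3.le] at h6
    linarith

end Pool.Agent.Q239.SF
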